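import Pool.Agent.K3h8.GG.Stm

/-! Brick COMB of project GG (helper8): ideals of relations between permutations. -/

set_option autoImplicit false
set_option linter.all false

namespace Pool.Agent.K3h79.GG

open Pool.Agent.K3h8.GG
open Equiv (Perm swap)

theorem op_apply {d n : ℕ} (u : Perm (Fin n) → ℚ) (f : (Fin n → Fin d) → ℚ) :
    op d n u f = ∑ σ, u σ • act d n σ f := by
  simp only [op, LinearMap.sum_apply, LinearMap.smul_apply]

theorem act_op {d n : ℕ} (g : Perm (Fin n)) (u : Perm (Fin n) → ℚ) (f : (Fin n → Fin d) → ℚ) :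
    act d n g (op d n u f) = op d n (fun s => u (g⁻¹ * s)) f := by
  rw [op_apply, op_apply, map_sum]
  refine Fintype.sum_equiv (Equiv.mulLeft g) _ _ (fun σ => ?_)
  rw [map_smul, Equiv.coe_mulLeft, inv_mul_cancel_left, map_mul]
  rfl

/-- replacement of the letter `a` by `b` -/
def E {d n : ℕ} (a b : Fin d) : Module.End ℚ ((Fin n → Fin d) → ℚ) where
  toFun f := fun w => ∑ i, if w i = a then f (Function.update w i b) else 0
  map_add' f g := by
    funext w
    simp only [Pi.add_apply, ← Finset.sum_add_distrib]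
    refine Finset.sum_congr rfl fun i _ => ?_
    split_ifs <;> simp
  map_smul' c f := by
    funext w
    simp only [Pi.smul_apply, smul_eq_mul, Finset.mul_sum, RingHom.id_apply]
    refine Finset.sum_congr rfl fun i _ => ?_
    split_ifs <;> simp

theorem E_act {d n : ℕ} (a b : Fin d) (σ : Perm (Fin n)) (f : (Fin n → Fin d) → ℚ) :
    E a b (act d n σ f) = act d n σ (E a b f) := by
  funext w
  show (∑ i, if w i = a then f (Function.update w i b ∘ σ) else 0) =
    ∑ i, if (w ∘ σ) i = a then f (Function.update (w ∘ σ) i b) else 0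
  refine (Fintype.sum_equiv σ _ _ (fun j => ?_)).symm
  have h : Function.update w (σ j) b ∘ σ = Function.update (w ∘ σ) j b := by
    funext k
    by_cases h : k = j
    · subst h
      simp
    · rw [Function.comp_apply, Function.update_of_ne (fun e => h (σ.injective e)),
        Function.update_of_ne h]
      rfl
  rw [h]
  rfl

theorem E_op {d n : ℕ} (a b : Fin d) (u : Perm (Fin n) → ℚ) (f : (Fin n → Fin d) → ℚ) :
    E a b (op d n u f) = op d n u (E a b f) := by
  rw [op_apply, op_apply, map_sum]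
  refine Finset.sum_congr rfl fun σ _ => ?_
  rw [map_smul, E_act]

theorem swap_up {n : ℕ} (τ : Perm (Fin n)) (i : Fin n) :
    swap 0 i.succ * up τ = up τ * swap 0 (τ⁻¹ i).succ := by
  have h := Equiv.mul_swap_eq_swap_mul (up τ) 0 (τ⁻¹ i).succ
  rw [h, up_zero, up_succ, show τ (τ⁻¹ i) = i from τ.apply_symm_apply i]

theorem core (hC : S_COS) {p N : ℕ} (I : ∀ n, Submodule ℚ (Perm (Fin n) → ℚ))
    (hR : ∀ n, ∀ u ∈ I n, ∀ g, (fun σ => u (σ * g)) ∈ I n)
    (hP : ∀ n, ∀ u ∈ I (n + 1), PTr p u ∈ I n)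
    (hmin : ∀ u ∈ I N, op (p + 1) N u = 0) (u : Perm (Fin (N + 1)) → ℚ) (hu : u ∈ I (N + 1))
    (f : (Fin (N + 1) → Fin (p + 1)) → ℚ) :
    ∑ i : Fin N, act (p + 1) (N + 1) (swap 0 i.succ) (op (p + 1) (N + 1) u f) =
      (-(p : ℚ)) • op (p + 1) (N + 1) u f := by
  have hv : op (p + 1) (N + 1) (fun σ => (p : ℚ) * u σ + ∑ i : Fin N, u (swap 0 i.succ * σ)) = 0 := by
    refine (hC (p + 1) N _).2 fun g => ?_
    have h1 : (fun τ : Perm (Fin N) => (p : ℚ) * u (up τ * g) +
        ∑ i : Fin N, u (swap 0 i.succ * (up τ * g))) = PTr p (fun s => u (s * g)) := by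
      funext τ
      simp only [PTr]
      congr 1
      refine Fintype.sum_equiv (τ⁻¹ : Perm (Fin N)) _ _ (fun i => ?_)
      rw [← mul_assoc, swap_up]
    rw [h1]
    exact hmin _ (hP N _ (hR (N + 1) u hu g))
  have h2 := congrArg (fun A => A f) hv
  simp only [LinearMap.zero_apply] at h2
  rw [op_apply] at h2
  simp only [add_smul, Finset.sum_add_distrib, Finset.sum_smul, mul_smul] at h2
  rw [← Finset.smul_sum, ← op_apply, Finset.sum_comm] at h2
  have h3 : ∀ i : Fin N, ∑ σ, u (swap 0 i.succ * σ) • act (p + 1) (N + 1) σ f =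
      act (p + 1) (N + 1) (swap 0 i.succ) (op (p + 1) (N + 1) u f) := by
    intro i
    rw [act_op, op_apply, Equiv.swap_inv]
  simp only [h3] at h2
  rw [neg_smul, eq_neg_iff_add_eq_zero]
  exact (add_comm _ _).trans h2

theorem t_COMB (hC : S_COS) (hH : S_HW) : S_COMB := by
  intro p I h0 hL hR hP hex
  classical
  obtain ⟨n, hn, hmin⟩ : ∃ n, (∃ u ∈ I n, op (p + 1) n u ≠ 0) ∧
      ∀ m < n, ¬ ∃ u ∈ I m, op (p + 1) m u ≠ 0 :=
    ⟨Nat.find hex, Nat.find_spec hex, fun m hm => Nat.find_min hex hm⟩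
  obtain ⟨u, hu, hne⟩ := hn
  cases n with
  | zero =>
    rw [h0, Submodule.mem_bot] at hu
    subst hu
    exact absurd (by simp [op]) hne
  | succ N =>
    have hmin' : ∀ u ∈ I N, op (p + 1) N u = 0 := by
      intro u hu
      by_contra h
      exact hmin N (Nat.lt_succ_self N) ⟨u, hu, h⟩
    obtain ⟨f, hf⟩ : ∃ f, op (p + 1) (N + 1) u f ≠ 0 := by
      by_contra h
      push Not at h
      exact hne (LinearMap.ext h)
    set W : Submodule ℚ ((Fin (N + 1) → Fin (p + 1)) → ℚ) :=
      Submodule.span ℚ {x | ∃ u ∈ I (N + 1), ∃ f, op (p + 1) (N + 1) u f = x} with hW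
    have hmem : ∀ u ∈ I (N + 1), ∀ f, op (p + 1) (N + 1) u f ∈ W := fun u hu f =>
      Submodule.subset_span ⟨u, hu, f, rfl⟩
    have hstab : ∀ (T : Module.End ℚ ((Fin (N + 1) → Fin (p + 1)) → ℚ)),
        (∀ u ∈ I (N + 1), ∀ f, T (op (p + 1) (N + 1) u f) ∈ W) → ∀ x ∈ W, T x ∈ W := by
      intro T hT x hx
      have h1 : W ≤ W.comap T := by
        rw [hW, Submodule.span_le]
        rintro _ ⟨u, hu, f, rfl⟩
        exact hT u hu f
      exact h1 hx
    obtain ⟨hNp, hs⟩ := hH p N W
      (fun h => hf (by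
        have := hmem u hu f
        rw [h] at this
        exact (Submodule.mem_bot ℚ).1 this))
      (fun σ => hstab (act (p + 1) (N + 1) σ) (fun u hu f => by
        rw [act_op]
        exact hmem _ (hL _ u hu _) f))
      (fun a b => hstab (E a b) (fun u hu f => by
        rw [E_op]
        exact hmem _ hu _))
      (by
        intro x hx
        have h1 : W ≤ LinearMap.ker (∑ i : Fin N, act (p + 1) (N + 1) (swap 0 i.succ) +
            (p : ℚ) • LinearMap.id) := by
          rw [hW, Submodule.span_le]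
          rintro _ ⟨u, hu, f, rfl⟩
          have h2 := core hC I hR hP hmin' u hu f
          show _ = _
          simp only [LinearMap.add_apply, LinearMap.sum_apply, LinearMap.smul_apply,
            LinearMap.id_apply]
          rw [h2, neg_smul, neg_add_cancel]
        have h3 := h1 hx
        rw [LinearMap.mem_ker] at h3
        simp only [LinearMap.add_apply, LinearMap.sum_apply, LinearMap.smul_apply,
          LinearMap.id_apply] at h3
        rw [neg_smul, eq_neg_iff_add_eq_zero]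
        exact h3)
    subst hNp
    set χ : ℚ := ∑ h : Perm (Fin (N + 1)), ((Equiv.Perm.sign h : ℤ) : ℚ) * u h with hχ
    have hsum : ∀ σ : Perm (Fin (N + 1)),
        (∑ g : Perm (Fin (N + 1)), ((Equiv.Perm.sign g : ℤ) : ℚ) * u (g⁻¹ * σ)) =
          ((Equiv.Perm.sign σ : ℤ) : ℚ) * χ := by
      intro σ
      rw [hχ, Finset.mul_sum]
      refine Fintype.sum_equiv ((Equiv.inv _).trans (Equiv.mulRight σ)) _ _ (fun g => ?_)
      have h1 : ((Equiv.inv (Perm (Fin (N + 1)))).trans (Equiv.mulRight σ)) g = g⁻¹ * σ := rfl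
      rw [h1, ← mul_assoc]
      congr 1
      rw [Equiv.Perm.sign_mul, Equiv.Perm.sign_inv]
      push_cast
      have h2 : (((Equiv.Perm.sign σ : ℤˣ) : ℤ) : ℚ) * ((Equiv.Perm.sign σ : ℤˣ) : ℤ) = 1 := by
        rcases Int.units_eq_one_or (Equiv.Perm.sign σ) with h | h <;> rw [h] <;> simp
      linear_combination (-(((Equiv.Perm.sign g : ℤˣ) : ℤ) : ℚ)) * h2
    have ha : (fun σ : Perm (Fin (N + 1)) => ((Equiv.Perm.sign σ : ℤ) : ℚ) * χ) ∈ I (N + 1) := by
      have h1 : (fun σ : Perm (Fin (N + 1)) => ((Equiv.Perm.sign σ : ℤ) : ℚ) * χ) =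
          ∑ g : Perm (Fin (N + 1)), ((Equiv.Perm.sign g : ℤ) : ℚ) • (fun σ => u (g⁻¹ * σ)) := by
        funext σ
        rw [← hsum, Finset.sum_apply]
        rfl
      rw [h1]
      exact Submodule.sum_mem _ fun g _ => Submodule.smul_mem _ _ (hL _ u hu _)
    have hχ0 : χ ≠ 0 := by
      intro h
      have h1 : ∑ g : Perm (Fin (N + 1)), ((Equiv.Perm.sign g : ℤ) : ℚ) •
          act (N + 1) (N + 1) g (op (N + 1) (N + 1) u f) = 0 := by
        have h2 : ∀ g : Perm (Fin (N + 1)), ((Equiv.Perm.sign g : ℤ) : ℚ) •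
            act (N + 1) (N + 1) g (op (N + 1) (N + 1) u f) =
            ∑ σ, (((Equiv.Perm.sign g : ℤ) : ℚ) * u (g⁻¹ * σ)) • act (N + 1) (N + 1) σ f := by
          intro g
          rw [act_op, op_apply, Finset.smul_sum]
          exact Finset.sum_congr rfl fun σ _ => smul_smul _ _ _
        simp only [h2]
        rw [Finset.sum_comm]
        simp only [← Finset.sum_smul, hsum, h, mul_zero, zero_smul, Finset.sum_const_zero]
      have h3 : ∀ g : Perm (Fin (N + 1)), ((Equiv.Perm.sign g : ℤ) : ℚ) •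
          act (N + 1) (N + 1) g (op (N + 1) (N + 1) u f) = op (N + 1) (N + 1) u f := by
        intro g
        rw [hs g _ (hmem u hu f), smul_smul]
        have h2 : (((Equiv.Perm.sign g : ℤˣ) : ℤ) : ℚ) * ((Equiv.Perm.sign g : ℤˣ) : ℤ) = 1 := by
          rcases Int.units_eq_one_or (Equiv.Perm.sign g) with h | h <;> rw [h] <;> simp
        rw [h2, one_smul]
      simp only [h3, Finset.sum_const] at h1
      rw [← Nat.cast_smul_eq_nsmul ℚ, smul_eq_zero] at h1
      rcases h1 with h1 | h1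
      · rw [Finset.card_univ] at h1
        exact Fintype.card_ne_zero (Nat.cast_eq_zero.1 h1)
      · exact hf h1
    have h4 := (I (N + 1)).smul_mem χ⁻¹ ha
    have h5 : (χ⁻¹ • fun σ : Perm (Fin (N + 1)) => ((Equiv.Perm.sign σ : ℤ) : ℚ) * χ) =
        fun σ => ((Equiv.Perm.sign σ : ℤ) : ℚ) := by
      funext σ
      show χ⁻¹ * (((Equiv.Perm.sign σ : ℤ) : ℚ) * χ) = _
      field_simp
    rw [h5] at h4
    exact h4

end Pool.Agent.K3h79.GG
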